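import Pool.Agent.W11.ER.N1

/-! Project ER, part DC: double counting in a linear space. -/

set_option autoImplicit false
set_option linter.all false

namespace Pool.Agent.W11.ER

open Finset Pool.Agent.W477.ER

theorem pp_succ (q n : ℕ) : pp q (n + 1) = q * pp q n + 1 := by
  unfold pp
  rw [sum_range_succ', mul_sum]
  congr 1
  apply sum_congr rfl
  intro i _
  rw [pow_succ, mul_comm]

section
open Classical

variable {q : ℕ} {α : Type} [Fintype α] (S : LinSp q α) (X : Finset α)

theorem one_line (P y : α) (hy : y ≠ P) : ((LP S P).filter (fun L => y ∈ L)).card = 1 := by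
  rw [card_eq_one]
  obtain ⟨L, hL, hP, hyL⟩ := S.exists_line P y (Ne.symm hy)
  refine ⟨L, ?_⟩
  ext L'
  rw [mem_filter, mem_singleton, mem_LP]
  constructor
  · rintro ⟨⟨h4, h5⟩, h6⟩
    exact S.unique_line P y (Ne.symm hy) L' h4 L hL h5 h6 hP hyL
  · rintro rfl
    exact ⟨⟨hL, hP⟩, hyL⟩

theorem sum_tp (P : α) : ∑ L ∈ LP S P, tp X P L + ind X P = X.card := by
  have h1 : ∑ L ∈ LP S P, ((X.erase P).filter (fun y => y ∈ L)).card =
      ∑ y ∈ X.erase P, ((LP S P).filter (fun L => y ∈ L)).card := by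
    simp only [card_filter]
    rw [sum_comm]
  have h2 : ∀ L ∈ LP S P, ((X.erase P).filter (fun y => y ∈ L)).card = tp X P L := by
    intro L hL
    unfold tp
    congr 1
    ext y
    simp only [mem_filter, mem_erase]
    tauto
  have h3 : ∀ y ∈ X.erase P, ((LP S P).filter (fun L => y ∈ L)).card = 1 := by
    intro y hy
    rw [mem_erase] at hy
    exact one_line S P y hy.1
  rw [sum_congr rfl h2, sum_congr rfl h3, sum_const, smul_eq_mul, mul_one] at h1
  rw [h1]
  unfold ind
  split_ifs with h
  · exact card_erase_add_one h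
  · rw [erase_eq_of_notMem h]; rfl

theorem gauss (q t : ℕ) (ht : t ≤ q) : ∑ i ∈ Ico 1 q, (if i < t then 2 * i else 0) = t * (t - 1) := by
  have h1 : ∑ i ∈ Ico 1 q, (if i < t then 2 * i else 0) = ∑ i ∈ range t, 2 * i := by
    rw [← sum_filter]
    have : (Ico 1 q).filter (fun i => i < t) = (range t).erase 0 := by
      ext i
      simp only [mem_filter, mem_Ico, mem_erase, mem_range]
      omega
    rw [this]
    by_cases h0 : 0 ∈ range t
    · rw [← sum_erase_add (range t) _ h0]; simp
    · rw [erase_eq_of_notMem h0]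
  rw [h1, ← mul_sum, mul_comm, sum_range_id_mul_two]

end

theorem dc : DC := by
  classical
  intro q M α _ S X hq hα
  refine ⟨fun P => ⟨?_, ?_, ?_⟩, fun P i => ?_, fun P i hi => ?_, ?_⟩
  · intro i j hij
    rw [nn_eq, nn_eq]
    apply card_le_card
    intro L hL
    rw [mem_filter] at hL ⊢
    exact ⟨hL.1, by omega⟩
  · unfold ind; split_ifs <;> omega
  · rw [range_eq_Ico, sum_nn]
    exact sum_tp S X P
  · have h1 := card_LP S P
    rw [hα] at h1
    rw [nn_eq]
    refine (card_filter_le _ _).trans ?_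
    cases M with
    | zero => unfold pp at h1; simp at h1
    | succ M' =>
      rw [pp_succ] at h1
      have h2 : q * (LP S P).card = q * pp q M' := by omega
      rw [Nat.eq_of_mul_eq_mul_left (by omega) h2]
      rfl
  · rw [nn_eq, card_eq_zero, filter_eq_empty_iff]
    intro L hL
    have := tp_le S X hL
    omega
  · -- second moment
    have h1 : ∀ P : α, ∑ i ∈ Ico 1 q, 2 * i * S.nn X P i = ∑ L ∈ LP S P, tp X P L * (tp X P L - 1) := by
      intro P
      have h2 : ∀ i ∈ Ico 1 q, 2 * i * S.nn X P i = ∑ L ∈ LP S P, if i < tp X P L then 2 * i else 0 := by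
        intro i _
        rw [nn_eq, ← sum_filter, sum_const, smul_eq_mul, mul_comm]
      rw [sum_congr rfl h2, sum_comm]
      apply sum_congr rfl
      intro L hL
      exact gauss q _ (tp_le S X hL)
    simp only [h1]
    have hth_le : ∀ L ∈ S.lines, th X L ≤ q + 1 := by
      intro L hL
      have h1 := S.card_line L hL
      rw [← h1]
      exact card_filter_le _ _
    have hthc : ∀ L ∈ S.lines, (th Xᶜ L : ℤ) = (q : ℤ) + 1 - th X L := by
      intro L hL
      have h1 := S.card_line L hL
      have h2 := card_filter_add_card_filter_not (s := L) (fun x => x ∈ X)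
      have h3 : L.filter (fun x => ¬ x ∈ X) = L.filter (fun x => x ∈ Xᶜ) := by
        apply filter_congr
        intro x _
        rw [mem_compl]
      rw [h3] at h2
      have h4 : th X L + th Xᶜ L = q + 1 := by
        unfold th
        rw [← h1, ← h2]
      have h5 : ((th X L + th Xᶜ L : ℕ) : ℤ) = ((q + 1 : ℕ) : ℤ) := by rw [h4]
      push_cast at h5
      linarith
    have hm2 : ∑ L ∈ S.lines, (th X L : ℤ) * ((th X L : ℤ) - 1) = (X.card : ℤ) * (X.card - 1) := by
      rw [← incid S X (fun L => (th X L : ℤ) - 1)]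
      have h1 : ∀ P ∈ X, ∑ L ∈ LP S P, ((th X L : ℤ) - 1) = X.card - 1 := by
        intro P hP
        have h2 := sum_tp S X P
        have h3 : ind X P = 1 := by unfold ind; rw [if_pos hP]
        rw [h3] at h2
        have h4 : ∀ L ∈ LP S P, (th X L : ℤ) - 1 = ((tp X P L : ℕ) : ℤ) := by
          intro L hL
          have := tp_in X hP ((mem_LP S).1 hL).2
          rw [← this]; push_cast; ring
        rw [sum_congr rfl h4, ← Nat.cast_sum, ← h2]
        push_cast; ring
      rw [sum_congr rfl h1, sum_const, nsmul_eq_mul]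
    have hin : ∑ P ∈ X, ∑ L ∈ LP S P, ((tp X P L * (tp X P L - 1) : ℕ) : ℤ) =
        ∑ L ∈ S.lines, (th X L : ℤ) * (((th X L : ℤ) - 1) * ((th X L : ℤ) - 2)) := by
      rw [← incid S X (fun L => ((th X L : ℤ) - 1) * ((th X L : ℤ) - 2))]
      apply sum_congr rfl
      intro P hP
      apply sum_congr rfl
      intro L hL
      have := tp_in X hP ((mem_LP S).1 hL).2
      rw [← this]
      rcases Nat.eq_zero_or_pos (tp X P L) with h | h
      · rw [h]; simp
      · rw [Nat.cast_mul, Nat.cast_sub h]; push_cast; ring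
    have hout : ∑ P ∈ Xᶜ, ∑ L ∈ LP S P, ((tp X P L * (tp X P L - 1) : ℕ) : ℤ) =
        ∑ L ∈ S.lines, (th Xᶜ L : ℤ) * ((th X L : ℤ) * ((th X L : ℤ) - 1)) := by
      rw [← incid S Xᶜ (fun L => (th X L : ℤ) * ((th X L : ℤ) - 1))]
      apply sum_congr rfl
      intro P hP
      apply sum_congr rfl
      intro L hL
      rw [tp_out X (mem_compl.1 hP)]
      rcases Nat.eq_zero_or_pos (th X L) with h | h
      · rw [h]; simp
      · rw [Nat.cast_mul, Nat.cast_sub h]; push_cast; ring
    have htot : ((∑ P : α, ∑ L ∈ LP S P, tp X P L * (tp X P L - 1) : ℕ) : ℤ) =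
        ((q : ℤ) - 1) * ((X.card : ℤ) * (X.card - 1)) := by
      rw [Nat.cast_sum]
      simp only [Nat.cast_sum]
      rw [← sum_add_sum_compl X, hin, hout, ← hm2, mul_sum, ← sum_add_distrib]
      apply sum_congr rfl
      intro L hL
      rw [hthc L hL]
      ring
    have hq1 : ((q - 1 : ℕ) : ℤ) = (q : ℤ) - 1 := by
      rw [Nat.cast_sub (by omega)]; push_cast; rfl
    have hX1 : ((X.card * (X.card - 1) : ℕ) : ℤ) = (X.card : ℤ) * (X.card - 1) := by
      rcases Nat.eq_zero_or_pos X.card with h | h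
      · rw [h]; simp
      · rw [Nat.cast_mul, Nat.cast_sub h]; push_cast; ring
    have hfin : ((∑ P : α, ∑ L ∈ LP S P, tp X P L * (tp X P L - 1) : ℕ) : ℤ) =
        (((q - 1) * (X.card * (X.card - 1)) : ℕ) : ℤ) := by
      rw [htot, Nat.cast_mul, hX1, hq1]
    exact_mod_cast hfin

end Pool.Agent.W11.ER
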