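import Pool.Agent.W477.ER.Stm

/-! Project ER, part LINK: independent forms vanishing on a set of points. -/

set_option autoImplicit false
set_option linter.all false

namespace Pool.Agent.W11.ER

open Finset Pool.Agent.W477.ER
open scoped LinearAlgebra.Projectivization

section
open Classical
variable (K : Type) [Field K] (m d : ℕ)

theorem hom_le_span : MvPolynomial.homogeneousSubmodule (Fin (m + 1)) K d ≤
    Submodule.span K (((finsuppAntidiag (univ : Finset (Fin (m + 1))) d).image
      (fun s => MvPolynomial.monomial s (1 : K)) : Finset _) : Set (MvPolynomial (Fin (m + 1)) K)) := by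
  intro f hf
  rw [MvPolynomial.mem_homogeneousSubmodule] at hf
  rw [f.as_sum]
  apply Submodule.sum_mem
  intro s hs
  have h1 : MvPolynomial.monomial s (f.coeff s) = f.coeff s • MvPolynomial.monomial s (1 : K) := by
    rw [MvPolynomial.smul_monomial, smul_eq_mul, mul_one]
  rw [h1]
  apply Submodule.smul_mem
  apply Submodule.subset_span
  rw [Finset.coe_image]
  refine ⟨s, ?_, rfl⟩
  rw [Finset.mem_coe, mem_finsuppAntidiag]
  refine ⟨?_, fun _ _ => mem_univ _⟩
  have h2 := hf (MvPolynomial.mem_support_iff.1 hs)
  rw [← h2, Finsupp.weight_apply, Finsupp.sum_fintype]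
  · simp
  · intro i; simp

theorem card_mon : ((finsuppAntidiag (univ : Finset (Fin (m + 1))) d).image
      (fun s => MvPolynomial.monomial s (1 : K))).card ≤ (m + d).choose d := by
  refine card_image_le.trans ?_
  rw [card_finsuppAntidiag_nat_eq_choose]
  rw [card_univ, Fintype.card_fin]
  apply le_of_eq
  congr 1
  omega

end

theorem linkMv : LinkMv := by
  classical
  intro K _ _ m d r F X hF hli hvan
  let H := MvPolynomial.homogeneousSubmodule (Fin (m + 1)) K d
  let W := Submodule.span K (((finsuppAntidiag (univ : Finset (Fin (m + 1))) d).image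
      (fun s => MvPolynomial.monomial s (1 : K)) : Finset _) : Set (MvPolynomial (Fin (m + 1)) K))
  have hHW : H ≤ W := hom_le_span K m d
  haveI hWf : FiniteDimensional K W := FiniteDimensional.span_finset K _
  haveI hHf : FiniteDimensional K H := Submodule.finiteDimensional_of_le hHW
  have hHrank : Module.finrank K H ≤ (m + d).choose d :=
    (Submodule.finrank_mono hHW).trans ((finrank_span_finset_le_card _).trans (card_mon K m d))
  let ev : MvPolynomial (Fin (m + 1)) K →ₗ[K] (X → K) :=
    LinearMap.pi fun x => (MvPolynomial.aeval x.1.rep : MvPolynomial (Fin (m + 1)) K →ₐ[K] K).toLinearMap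
  have hev : ∀ f (x : X), ev f x = MvPolynomial.eval x.1.rep f := by
    intro f x
    show MvPolynomial.aeval x.1.rep f = _
    rw [MvPolynomial.aeval_eq_eval]
  let g : H →ₗ[K] (X → K) := ev.domRestrict H
  have hrn := LinearMap.finrank_range_add_finrank_ker g
  have hker : r ≤ Module.finrank K (LinearMap.ker g) := by
    let v : Fin r → LinearMap.ker g := fun i => ⟨⟨F i, (MvPolynomial.mem_homogeneousSubmodule d _).2 (hF i)⟩, by
      rw [LinearMap.mem_ker]
      funext x
      show ev (F i) x = 0
      rw [hev]
      exact hvan x.1 x.2 i⟩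
    have hv : LinearIndependent K v := by
      apply LinearIndependent.of_comp (H.subtype.comp (LinearMap.ker g).subtype)
      exact hli
    have := hv.fintype_card_le_finrank
    rwa [Fintype.card_fin] at this
  have hran : hh K (Fin (m + 1) → K) d X ≤ Module.finrank K (LinearMap.range g) := by
    unfold hh
    apply Submodule.finrank_mono
    unfold Sd
    rw [Submodule.map_span, Submodule.span_le]
    rintro _ ⟨_, ⟨l, rfl⟩, rfl⟩
    let f : MvPolynomial (Fin (m + 1)) K :=
      ∏ i, ∑ j, MvPolynomial.C (l i (Pi.single j 1)) * MvPolynomial.X j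
    have hf : f.IsHomogeneous d := by
      have h1 : f.IsHomogeneous (∑ _i : Fin d, 1) := by
        apply MvPolynomial.IsHomogeneous.prod
        intro i _
        apply MvPolynomial.IsHomogeneous.sum
        intro j _
        have h2 := (MvPolynomial.isHomogeneous_C (Fin (m + 1)) (l i (Pi.single j 1))).mul
          (MvPolynomial.isHomogeneous_X K j)
        rwa [zero_add] at h2
      simpa using h1
    refine ⟨⟨f, (MvPolynomial.mem_homogeneousSubmodule d _).2 hf⟩, ?_⟩
    funext x
    show ev f x = _
    rw [hev]
    show MvPolynomial.eval x.1.rep f = ∏ i, l i x.1.rep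
    simp only [f]
    rw [map_prod]
    apply prod_congr rfl
    intro i _
    rw [map_sum]
    have h3 : l i x.1.rep = ∑ j, x.1.rep j * l i (Pi.single j 1) := by
      conv_lhs => rw [pi_eq_sum_univ' x.1.rep]
      rw [map_sum]
      apply sum_congr rfl
      intro j _
      rw [map_smul, smul_eq_mul]
    rw [h3]
    apply sum_congr rfl
    intro j _
    rw [map_mul, MvPolynomial.eval_C, MvPolynomial.eval_X, mul_comm]
  have : r + hh K (Fin (m + 1) → K) d X ≤ Module.finrank K H := by
    rw [← hrn]
    omega
  exact this.trans hHrank

end Pool.Agent.W11.ER
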