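import Pool.Agent.W477.ER.Stm

/-! Project ER, part N1: a good point in dimension l + 3. -/

set_option autoImplicit false
set_option linter.all false

namespace Pool.Agent.W11.ER

open Finset Pool.Agent.W477.ER

section
open Classical

variable {q : ℕ} {α : Type} [Fintype α] (S : LinSp q α) (X : Finset α)

/-- lines through a point -/
noncomputable def LP (P : α) : Finset (Finset α) := S.lines.filter (fun L => P ∈ L)

/-- number of points of X on a line -/
noncomputable def th (L : Finset α) : ℕ := (L.filter (fun x => x ∈ X)).card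

/-- number of points of X other than P on a line -/
noncomputable def tp (P : α) (L : Finset α) : ℕ := (L.filter (fun x => x ∈ X ∧ x ≠ P)).card

theorem mem_LP {P : α} {L : Finset α} : L ∈ LP S P ↔ L ∈ S.lines ∧ P ∈ L := by
  unfold LP; rw [mem_filter]

theorem tp_out {P : α} (hP : P ∉ X) (L : Finset α) : tp X P L = th X L := by
  unfold tp th
  congr 1
  apply filter_congr
  intro x _
  constructor
  · intro h; exact h.1
  · intro h; exact ⟨h, fun h2 => hP (h2 ▸ h)⟩

theorem tp_in {P : α} (hP : P ∈ X) {L : Finset α} (hL : P ∈ L) : tp X P L + 1 = th X L := by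
  unfold tp th
  have : L.filter (fun x => x ∈ X ∧ x ≠ P) = (L.filter (fun x => x ∈ X)).erase P := by
    ext x
    simp only [mem_filter, mem_erase]
    tauto
  rw [this]
  exact card_erase_add_one (mem_filter.2 ⟨hL, hP⟩)

theorem tp_le {P : α} {L : Finset α} (hL : L ∈ LP S P) : tp X P L ≤ q := by
  rw [mem_LP] at hL
  have h1 := S.card_line L hL.1
  have h2 : tp X P L ≤ (L.erase P).card := by
    apply card_le_card
    intro x hx
    rw [mem_filter] at hx
    exact mem_erase.2 ⟨hx.2.2, hx.1⟩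
  rw [card_erase_of_mem hL.2, h1] at h2
  omega

theorem nn_eq (P : α) (i : ℕ) : S.nn X P i = ((LP S P).filter (fun L => i < tp X P L)).card := by
  unfold LinSp.nn LP tp
  rw [filter_filter]

/-- sums of the rows as sums over lines -/
theorem sum_nn (P : α) (a : ℕ) : ∑ i ∈ Ico a q, S.nn X P i = ∑ L ∈ LP S P, (tp X P L - a) := by
  simp only [nn_eq, card_filter]
  rw [sum_comm]
  apply sum_congr rfl
  intro L hL
  have h1 := tp_le S X hL
  rw [← card_filter]
  have : (Ico a q).filter (fun i => i < tp X P L) = Ico a (tp X P L) := by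
    ext i
    simp only [mem_filter, mem_Ico]
    omega
  rw [this, Nat.card_Ico]

theorem sum_nn_low (P : α) (v : ℕ) :
    ∑ i ∈ range v, ((LP S P).card - S.nn X P i) = ∑ L ∈ LP S P, (v - tp X P L) := by
  have h1 : ∀ i, (LP S P).card - S.nn X P i = ((LP S P).filter (fun L => tp X P L ≤ i)).card := by
    intro i
    rw [nn_eq]
    have := card_filter_add_card_filter_not (s := LP S P) (fun L => i < tp X P L)
    have h2 : ((LP S P).filter (fun L => ¬ i < tp X P L)) = (LP S P).filter (fun L => tp X P L ≤ i) := by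
      apply filter_congr
      intro L _
      exact not_lt
    rw [h2] at this
    omega
  simp only [h1, card_filter]
  rw [sum_comm]
  apply sum_congr rfl
  intro L hL
  rw [← card_filter]
  have : (range v).filter (fun i => tp X P L ≤ i) = Ico (tp X P L) v := by
    ext i
    simp only [mem_filter, mem_Ico, mem_range]
    omega
  rw [this, Nat.card_Ico]

/-- number of lines through a point -/
theorem card_LP (P : α) : q * (LP S P).card + 1 = Fintype.card α := by
  have h1 : ∑ L ∈ LP S P, ((univ.erase P).filter (fun y => y ∈ L)).card =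
      ∑ y ∈ univ.erase P, ((LP S P).filter (fun L => y ∈ L)).card := by
    simp only [card_filter]
    rw [sum_comm]
  have h2 : ∀ L ∈ LP S P, ((univ.erase P).filter (fun y => y ∈ L)).card = q := by
    intro L hL
    rw [mem_LP] at hL
    have : (univ.erase P).filter (fun y => y ∈ L) = L.erase P := by
      ext y
      simp only [mem_filter, mem_erase, mem_univ, and_true]
    rw [this, card_erase_of_mem hL.2, S.card_line L hL.1]
    rfl
  have h3 : ∀ y ∈ univ.erase P, ((LP S P).filter (fun L => y ∈ L)).card = 1 := by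
    intro y hy
    rw [mem_erase] at hy
    rw [card_eq_one]
    obtain ⟨L, hL, hP, hyL⟩ := S.exists_line P y (Ne.symm hy.1)
    refine ⟨L, ?_⟩
    ext L'
    rw [mem_filter, mem_singleton, mem_LP]
    constructor
    · rintro ⟨⟨h4, h5⟩, h6⟩
      exact S.unique_line P y (Ne.symm hy.1) L' h4 L hL h5 h6 hP hyL
    · rintro rfl
      exact ⟨⟨hL, hP⟩, hyL⟩
  rw [sum_congr rfl h2, sum_congr rfl h3] at h1
  rw [sum_const, sum_const, smul_eq_mul, smul_eq_mul, mul_one, card_erase_of_mem (mem_univ P), card_univ] at h1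
  have h4 : 0 < Fintype.card α := Fintype.card_pos_iff.2 ⟨P⟩
  rw [mul_comm]
  omega

/-- incidence double counting -/
theorem incid (Y : Finset α) (f : Finset α → ℤ) :
    ∑ P ∈ Y, ∑ L ∈ LP S P, f L = ∑ L ∈ S.lines, (th Y L : ℤ) * f L := by
  have h1 : ∀ P ∈ Y, ∑ L ∈ LP S P, f L = ∑ L ∈ S.lines, if P ∈ L then f L else 0 := by
    intro P _
    unfold LP
    rw [sum_filter]
  rw [sum_congr rfl h1, sum_comm]
  apply sum_congr rfl
  intro L _
  rw [← sum_filter, sum_const, nsmul_eq_mul]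
  congr 2
  unfold th
  congr 1
  ext x
  simp only [mem_filter]
  tauto

end

theorem n1_of (hDC : DC) (hSatD : SatD) (hOut : SatOut) (hIn : SatIn) (hFQ : FQ) (hG : IneqG)
    (hpp : PpBasic) : N1 := by
  classical
  intro q d l v r α _ S X hq hα hPar
  obtain ⟨hpp0, hpp1, hpps, hppm, hppq, hppmono⟩ := hpp
  obtain ⟨hD1, hD2, hD3, hD4⟩ := hDC q (l + 3) α S X (by omega) hα
  obtain ⟨hq2, hdq, hv1, hvd, hr1, hr2, hN⟩ := id hPar
  have hXpos : 0 < X.card := by omega
  by_cases hvd' : v = d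
  · subst hvd'
    obtain ⟨P, hP⟩ := card_pos.1 hXpos
    refine ⟨P, ?_⟩
    have h1 := hD1 P
    have h2 : ind X P = 1 := by unfold ind; rw [if_pos hP]
    unfold LinSp.Good
    rw [h2] at h1 ⊢
    exact hSatD q v l r X.card (S.nn X P) hPar h1 (hD2 P 0)
  have hvlt : v < d := lt_of_le_of_ne hvd hvd'
  by_contra hno
  push Not at hno
  -- number of lines through a point
  set p0 := pp q l with hp0
  set p1 := pp q (l + 1) with hp1
  set p2 := pp q (l + 2) with hp2
  set p3 := pp q (l + 3) with hp3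
  have e32 : p3 = q * p2 + 1 := hppm q (l + 2)
  have e21 : p2 = q * p1 + 1 := hppm q (l + 1)
  have hLP : ∀ P, (LP S P).card = p2 := by
    intro P
    have h1 := card_LP S P
    rw [hα, e32] at h1
    have h2 : q * (LP S P).card = q * p2 := by omega
    exact Nat.eq_of_mul_eq_mul_left (by omega) h2
  -- the local inequalities
  have hout : ∀ P, P ∉ X → ∑ L ∈ LP S P, ((q : ℤ) * ((v - th X L : ℕ) : ℤ) - ((th X L - v - 1 : ℕ) : ℤ)) ≤
      q * (((v : ℤ) - 1) * p1 + p0 - 1) := by
    intro P hP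
    have h1 := hD1 P
    have h2 : ind X P = 0 := by unfold ind; rw [if_neg hP]
    have h3 := hno P
    unfold LinSp.Good at h3
    rw [h2] at h1 h3
    have h4 := hOut q d l v r X.card (S.nn X P) hPar h1 (hD2 P 0) (not_le.1 h3)
    rw [show pp q (l + 2) = (LP S P).card from (hLP P).symm, sum_nn_low, sum_nn] at h4
    have h5 : ∀ L ∈ LP S P, v - tp X P L = v - th X L := fun L _ => by rw [tp_out X hP]
    have h6 : ∀ L ∈ LP S P, tp X P L - (v + 1) = th X L - v - 1 := fun L _ => by rw [tp_out X hP]; omega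
    rw [sum_congr rfl h5, sum_congr rfl h6] at h4
    rw [sum_sub_distrib, ← mul_sum]
    have h7 : ((q * ∑ L ∈ LP S P, (v - th X L) + q : ℕ) : ℤ) ≤
        ((q * ((v - 1) * pp q (l + 1) + pp q l) + ∑ L ∈ LP S P, (th X L - v - 1) : ℕ) : ℤ) := by
      exact_mod_cast h4
    push_cast [Nat.cast_sub hv1] at h7
    rw [← hp0, ← hp1] at h7
    push_cast
    linarith
  have hin : ∀ P, P ∈ X → ∑ L ∈ LP S P, ((q : ℤ) * ((v + 1 - th X L : ℕ) : ℤ) - ((th X L - 1 - v : ℕ) : ℤ)) ≤
      q * (((v : ℤ) - 1) * p1) := by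
    intro P hP
    have h1 := hD1 P
    have h2 : ind X P = 1 := by unfold ind; rw [if_pos hP]
    have h3 := hno P
    unfold LinSp.Good at h3
    rw [h2] at h1 h3
    have h4 := hIn q d l v r X.card (S.nn X P) hPar h1 (hD2 P 0) (not_le.1 h3)
    rw [show pp q (l + 2) = (LP S P).card from (hLP P).symm, sum_nn_low, sum_nn] at h4
    have h5 : ∀ L ∈ LP S P, v - tp X P L = v + 1 - th X L := fun L hL => by
      have := tp_in X hP ((mem_LP S).1 hL).2
      omega
    have h6 : ∀ L ∈ LP S P, tp X P L - v = th X L - 1 - v := fun L hL => by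
      have := tp_in X hP ((mem_LP S).1 hL).2
      omega
    rw [sum_congr rfl h5, sum_congr rfl h6] at h4
    rw [sum_sub_distrib, ← mul_sum]
    have h7 : ((q * ∑ L ∈ LP S P, (v + 1 - th X L) : ℕ) : ℤ) ≤
        ((q * ((v - 1) * pp q (l + 1)) + ∑ L ∈ LP S P, (th X L - 1 - v) : ℕ) : ℤ) := by
      exact_mod_cast h4
    push_cast [Nat.cast_sub hv1] at h7
    rw [← hp1] at h7
    push_cast
    linarith
  -- sums over all points
  set N := X.card with hNdef
  have hXc : (Xᶜ.card : ℤ) = p3 - N := by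
    rw [card_compl, hα, Nat.cast_sub]
    rw [← hα]
    exact card_le_univ X
  have hq0 : (0 : ℤ) < q := by exact_mod_cast (by omega : 0 < q)
  have hqv : (0 : ℤ) ≤ (q : ℤ) + 1 - v := by
    have : v ≤ q := by omega
    have : (v : ℤ) ≤ q := by exact_mod_cast this
    linarith
  have hq1 : (0 : ℤ) ≤ (q : ℤ) - 1 := by linarith
  have hSout := sum_le_sum (fun P (hP : P ∈ Xᶜ) => hout P (mem_compl.1 hP))
  have hSin := sum_le_sum (fun P (hP : P ∈ X) => hin P hP)
  rw [incid, sum_const, nsmul_eq_mul, hXc] at hSout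
  rw [incid, sum_const, nsmul_eq_mul] at hSin
  have hthc : ∀ L ∈ S.lines, (th Xᶜ L : ℤ) = (q : ℤ) + 1 - th X L := by
    intro L hL
    have h1 := S.card_line L hL
    have h2 := card_filter_add_card_filter_not (s := L) (fun x => x ∈ X)
    have h3 : L.filter (fun x => ¬ x ∈ X) = L.filter (fun x => x ∈ Xᶜ) := by
      apply filter_congr
      intro x _
      rw [mem_compl]
    rw [h3] at h2
    have h4 : th X L + th Xᶜ L = q + 1 := by
      unfold th
      rw [← h1, ← h2]
    have h5 : ((th X L + th Xᶜ L : ℕ) : ℤ) = ((q + 1 : ℕ) : ℤ) := by rw [h4]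
    push_cast at h5
    linarith
  have hth_le : ∀ L ∈ S.lines, th X L ≤ q + 1 := by
    intro L hL
    have h1 := S.card_line L hL
    rw [← h1]
    exact card_filter_le _ _
  -- combine with the certificate
  have hcomb : ∑ L ∈ S.lines, ((q : ℤ) * ((th X L : ℤ) - v - 1) *
      (v * (q - 1) * ((th X L : ℤ) - q - 1) - ((q : ℤ) + 1 - v) * th X L)) ≤
      ((v : ℤ) + 1) * (q - 1) * (((p3 : ℤ) - N) * (q * (((v : ℤ) - 1) * p1 + p0 - 1))) +
        q * ((q : ℤ) + 1 - v) * (N * (q * (((v : ℤ) - 1) * p1))) := by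
    have h1 : ∑ L ∈ S.lines, ((q : ℤ) * ((th X L : ℤ) - v - 1) *
        (v * (q - 1) * ((th X L : ℤ) - q - 1) - ((q : ℤ) + 1 - v) * th X L)) ≤
        ((v : ℤ) + 1) * (q - 1) * (∑ L ∈ S.lines, (th Xᶜ L : ℤ) *
          ((q : ℤ) * ((v - th X L : ℕ) : ℤ) - ((th X L - v - 1 : ℕ) : ℤ))) +
        q * ((q : ℤ) + 1 - v) * (∑ L ∈ S.lines, (th X L : ℤ) *
          ((q : ℤ) * ((v + 1 - th X L : ℕ) : ℤ) - ((th X L - 1 - v : ℕ) : ℤ))) := by
      rw [mul_sum, mul_sum, ← sum_add_distrib]
      apply sum_le_sum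
      intro L hL
      have h2 := hFQ q v (th X L) hq hv1 (by omega) (hth_le L hL)
      rw [hthc L hL]
      linarith
    have h3 : ((v : ℤ) + 1) * (q - 1) * (∑ L ∈ S.lines, (th Xᶜ L : ℤ) *
          ((q : ℤ) * ((v - th X L : ℕ) : ℤ) - ((th X L - v - 1 : ℕ) : ℤ))) ≤
        ((v : ℤ) + 1) * (q - 1) * (((p3 : ℤ) - N) * (q * (((v : ℤ) - 1) * p1 + p0 - 1))) :=
      mul_le_mul_of_nonneg_left hSout (by positivity)
    have h4 : q * ((q : ℤ) + 1 - v) * (∑ L ∈ S.lines, (th X L : ℤ) *
          ((q : ℤ) * ((v + 1 - th X L : ℕ) : ℤ) - ((th X L - 1 - v : ℕ) : ℤ))) ≤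
        q * ((q : ℤ) + 1 - v) * (N * (q * (((v : ℤ) - 1) * p1))) :=
      mul_le_mul_of_nonneg_left hSin (by positivity)
    linarith
  -- the moments
  have hm1 : ∑ L ∈ S.lines, (th X L : ℤ) = N * p2 := by
    have h1 := incid S X (fun _ => 1)
    simp only [mul_one, sum_const, nsmul_eq_mul] at h1
    rw [← h1]
    simp only [hLP]
    rw [sum_const, nsmul_eq_mul]
  have hm2 : ∑ L ∈ S.lines, (th X L : ℤ) * ((th X L : ℤ) - 1) = N * (N - 1) := by
    rw [← incid S X (fun L => (th X L : ℤ) - 1)]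
    have h1 : ∀ P ∈ X, ∑ L ∈ LP S P, ((th X L : ℤ) - 1) = N - 1 := by
      intro P hP
      have h2 := (hD1 P).2.2
      have h3 : ind X P = 1 := by unfold ind; rw [if_pos hP]
      rw [h3, range_eq_Ico, sum_nn] at h2
      have h4 : ∀ L ∈ LP S P, (th X L : ℤ) - 1 = ((tp X P L - 0 : ℕ) : ℤ) := by
        intro L hL
        have := tp_in X hP ((mem_LP S).1 hL).2
        rw [← this, Nat.sub_zero]; push_cast; ring
      rw [sum_congr rfl h4, ← Nat.cast_sum]
      have h5 : ((∑ L ∈ LP S P, (tp X P L - 0) + 1 : ℕ) : ℤ) = (N : ℤ) := by rw [h2]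
      push_cast at h5 ⊢
      linarith
    rw [sum_congr rfl h1, sum_const, nsmul_eq_mul]
  have hm0 : (S.lines.card : ℤ) * (q + 1) = p3 * p2 := by
    have h1 := incid S (univ : Finset α) (fun _ => 1)
    simp only [mul_one, sum_const, nsmul_eq_mul] at h1
    simp only [hLP] at h1
    rw [sum_const, nsmul_eq_mul, card_univ, hα] at h1
    have h2 : ∀ L ∈ S.lines, (th (univ : Finset α) L : ℤ) = q + 1 := by
      intro L hL
      have := S.card_line L hL
      unfold th
      rw [filter_true_of_mem (fun x _ => mem_univ x), this]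
      push_cast; rfl
    rw [sum_congr rfl h2, sum_const, nsmul_eq_mul] at h1
    exact h1.symm
  have hexp : ∑ L ∈ S.lines, ((q : ℤ) * ((th X L : ℤ) - v - 1) *
      (v * (q - 1) * ((th X L : ℤ) - q - 1) - ((q : ℤ) + 1 - v) * th X L)) =
      q * (((v : ℤ) * (q - 1) - (q + 1 - v)) * (N * (N - 1)) +
        ((((v : ℤ) * (q - 1) - (q + 1 - v)) * (-v)) - v * (q - 1) * (q + 1)) * (N * p2) +
        v * (q - 1) * (v + 1) * (p3 * p2)) := by
    rw [← hm2, ← hm1, ← hm0]
    have h1 : (S.lines.card : ℤ) = ∑ L ∈ S.lines, (1 : ℤ) := by simp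
    rw [h1, mul_add, mul_add, sum_mul, mul_sum, mul_sum, mul_sum, mul_sum, mul_sum, mul_sum,
      ← sum_add_distrib, ← sum_add_distrib]
    apply sum_congr rfl
    intro L _
    ring
  rw [hexp] at hcomb
  have hr2' : r ≤ (q - 1 - v) * q ^ l + 1 := by
    have : (d - v) * q ^ l ≤ (q - 1 - v) * q ^ l := Nat.mul_le_mul_right _ (by omega)
    omega
  have hGG := hG q l v r N p0 p1 p2 p3 hq hv1 (by omega) hr1 hr2' rfl rfl rfl rfl (by
    rw [hN]; push_cast; ring)
  have e21' : (q : ℤ) * p1 = p2 - 1 := by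
    have : ((p2 : ℕ) : ℤ) = ((q * p1 + 1 : ℕ) : ℤ) := by rw [e21]
    push_cast at this
    linarith
  have hdiv : (((v : ℤ) * (q - 1) - (q + 1 - v)) * (N * (N - 1)) +
        ((((v : ℤ) * (q - 1) - (q + 1 - v)) * (-v)) - v * (q - 1) * (q + 1)) * (N * p2) +
        v * (q - 1) * (v + 1) * (p3 * p2)) ≤
      ((v : ℤ) + 1) * (q - 1) * (((p3 : ℤ) - N) * (((v : ℤ) - 1) * p1 + p0 - 1)) +
        ((q : ℤ) + 1 - v) * (N * (((v : ℤ) - 1) * (q * p1))) := by
    apply le_of_mul_le_mul_left _ hq0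
    linarith
  rw [e21'] at hdiv
  linarith

end Pool.Agent.W11.ER
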